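import Pool.Agent.U280.OE.Stm

/-!
# Project OE, package S: systems with a symmetry
-/

set_option autoImplicit false

open MeasureTheory Set Filter Topology

namespace Pool.Agent.U450.OE

open Pool.Agent.U280.OE

theorem integral_eq_zero_of_symm {α : Type*} [MeasurableSpace α] {μ : Measure α} {g : α → α}
    (hg : MeasurePreserving g μ μ) {F : α → ℂ} (hF : AEStronglyMeasurable F μ) {a : ℂ}
    (ha : a ≠ 1) (h : ∀ᵐ x ∂μ, F (g x) = a * F x) : ∫ x, F x ∂μ = 0 := by
  have h1 : ∫ x, F x ∂μ = ∫ x, F (g x) ∂μ := by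
    have h2 := integral_map (μ := μ) hg.measurable.aemeasurable
      (f := F) (by rw [hg.map_eq]; exact hF)
    rw [hg.map_eq] at h2
    exact h2
  have h3 : ∫ x, F (g x) ∂μ = a * ∫ x, F x ∂μ := by
    rw [integral_congr_ae h, integral_const_mul]
  have h4 : (1 - a) * ∫ x, F x ∂μ = 0 := by
    rw [sub_mul, one_mul, ← h3, ← h1, sub_self]
  rcases mul_eq_zero.1 h4 with h5 | h5
  · exact absurd (sub_eq_zero.1 h5).symm ha
  · exact h5

theorem t_S : T_S := by
  intro d N u hu g hg ζ hζ hζ1 hs
  refine ⟨fun c => ?_, fun hζ2 i j => ?_⟩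
  · have hsum : MemLp (fun x => ∑ n, c n * u n x) 2 :=
      memLp_finset_sum _ fun n _ => (hu n).const_mul (c n)
    refine integral_eq_zero_of_symm hg (a := ζ) ?_ hζ1 ?_
    · exact (Complex.continuous_ofReal.comp_aestronglyMeasurable
        hsum.aestronglyMeasurable.norm).mul hsum.aestronglyMeasurable
    · filter_upwards [ae_all_iff.2 hs] with x hx
      have h1 : ∑ n, c n * u n (g x) = ζ * ∑ n, c n * u n x := by
        rw [Finset.mul_sum]
        refine Finset.sum_congr rfl fun n _ => ?_
        rw [hx n]; ring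
      rw [h1, norm_mul, hζ, one_mul]
      ring
  · refine integral_eq_zero_of_symm hg (a := ζ ^ 2) ?_ hζ2 ?_
    · exact (hu i).aestronglyMeasurable.mul (hu j).aestronglyMeasurable
    · filter_upwards [hs i, hs j] with x h1 h2
      rw [h1, h2]; ring

end Pool.Agent.U450.OE
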